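import Pool.Agent.Work.MP_332575_al.TR.Transfer

set_option autoImplicit false

/-!
# The commutator form of a central extension on an abelian subgroup

`p : E → X` a central extension, `ι : V → X` additive. The commutators of lifts give a biadditive
alternating form `β` on `V` with values in the centre of `E`.
-/

open scoped IsMulCommutative

namespace VRC.TR

section

variable {E X V : Type} [Group E] [Group X] [AddCommGroup V]

theorem comm_mul_left {x x' y : E} (h : x' * y * x'⁻¹ * y⁻¹ ∈ Subgroup.center E) :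
    x * x' * y * (x * x')⁻¹ * y⁻¹ = (x * y * x⁻¹ * y⁻¹) * (x' * y * x'⁻¹ * y⁻¹) := by
  have hz : ∀ g : E, g * (x' * y * x'⁻¹ * y⁻¹) = (x' * y * x'⁻¹ * y⁻¹) * g :=
    fun g => Subgroup.mem_center_iff.1 h g
  calc x * x' * y * (x * x')⁻¹ * y⁻¹
      = x * (x' * y * x'⁻¹ * y⁻¹) * (y * x⁻¹ * y⁻¹) := by group
    _ = (x' * y * x'⁻¹ * y⁻¹) * x * (y * x⁻¹ * y⁻¹) := by rw [hz x]
    _ = (x' * y * x'⁻¹ * y⁻¹) * (x * y * x⁻¹ * y⁻¹) := by group
    _ = (x * y * x⁻¹ * y⁻¹) * (x' * y * x'⁻¹ * y⁻¹) := (hz _).symm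

theorem comm_mul_right {x y y' : E} (h : x * y' * x⁻¹ * y'⁻¹ ∈ Subgroup.center E) :
    x * (y * y') * x⁻¹ * (y * y')⁻¹ = (x * y * x⁻¹ * y⁻¹) * (x * y' * x⁻¹ * y'⁻¹) := by
  have hz : ∀ g : E, g * (x * y' * x⁻¹ * y'⁻¹) = (x * y' * x⁻¹ * y'⁻¹) * g :=
    fun g => Subgroup.mem_center_iff.1 h g
  calc x * (y * y') * x⁻¹ * (y * y')⁻¹
      = (x * y * x⁻¹) * (x * y' * x⁻¹ * y'⁻¹) * y⁻¹ := by group
    _ = (x * y * x⁻¹) * (y⁻¹ * (x * y' * x⁻¹ * y'⁻¹)) := by rw [hz y⁻¹]; group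
    _ = (x * y * x⁻¹ * y⁻¹) * (x * y' * x⁻¹ * y'⁻¹) := by group

theorem comm_mem_ker (p : E →* X) (ι : V → X) (hι : ∀ u v, ι (u + v) = ι u * ι v) {x y : E}
    {u v : V} (hx : p x = ι u) (hy : p y = ι v) : x * y * x⁻¹ * y⁻¹ ∈ p.ker := by
  rw [MonoidHom.mem_ker, map_mul, map_mul, map_mul, map_inv, map_inv, hx, hy, ← hι, add_comm, hι]
  group

theorem comm_congr (p : E →* X) (hc : p.ker ≤ Subgroup.center E) {x x' y y' : E}
    (hx : p x = p x') (hy : p y = p y') :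
    x * y * x⁻¹ * y⁻¹ = x' * y' * x'⁻¹ * y'⁻¹ := by
  have h1 : x'⁻¹ * x ∈ Subgroup.center E := hc (by rw [MonoidHom.mem_ker, map_mul, map_inv, hx]; group)
  have h2 : y'⁻¹ * y ∈ Subgroup.center E := hc (by rw [MonoidHom.mem_ker, map_mul, map_inv, hy]; group)
  have z1 := fun g => Subgroup.mem_center_iff.1 h1 g
  have z2 := fun g => Subgroup.mem_center_iff.1 h2 g
  obtain ⟨a, ha⟩ : ∃ a, a = x'⁻¹ * x := ⟨_, rfl⟩
  obtain ⟨b, hb⟩ : ∃ b, b = y'⁻¹ * y := ⟨_, rfl⟩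
  rw [← ha] at z1
  rw [← hb] at z2
  have ex : x = x' * a := by rw [ha]; group
  have ey : y = y' * b := by rw [hb]; group
  rw [ex, ey]
  calc x' * a * (y' * b) * (x' * a)⁻¹ * (y' * b)⁻¹
      = x' * (a * y') * b * a⁻¹ * x'⁻¹ * b⁻¹ * y'⁻¹ := by group
    _ = x' * y' * (a * (b * a⁻¹)) * x'⁻¹ * b⁻¹ * y'⁻¹ := by rw [← z1 y']; group
    _ = x' * y' * (b * x'⁻¹) * b⁻¹ * y'⁻¹ := by rw [← z1 (b * a⁻¹)]; group
    _ = x' * y' * x'⁻¹ * y'⁻¹ := by rw [← z2 x'⁻¹]; group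

/-- the commutator form -/
theorem exists_beta (p : E →* X) (hs : Function.Surjective p) (hc : p.ker ≤ Subgroup.center E)
    (ι : V → X) (hι : ∀ u v, ι (u + v) = ι u * ι v) :
    ∃ β : V →+ V →+ Additive (Subgroup.center E), ∀ (x y : E) (u v : V), p x = ι u → p y = ι v →
      x * y * x⁻¹ * y⁻¹ = ((β u v).toMul : E) := by
  choose f hf using fun u : V => hs (ι u)
  have hm : ∀ u v, f u * f v * (f u)⁻¹ * (f v)⁻¹ ∈ Subgroup.center E := fun u v =>
    hc (comm_mem_ker p ι hι (hf u) (hf v))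
  have h1 : ∀ u u' v, f (u + u') * f v * (f (u + u'))⁻¹ * (f v)⁻¹
      = (f u * f v * (f u)⁻¹ * (f v)⁻¹) * (f u' * f v * (f u')⁻¹ * (f v)⁻¹) := by
    intro u u' v
    rw [← comm_mul_left (hm u' v)]
    apply comm_congr p hc _ rfl
    rw [map_mul, hf, hf, hf, hι]
  have h2 : ∀ u v v', f u * f (v + v') * (f u)⁻¹ * (f (v + v'))⁻¹
      = (f u * f v * (f u)⁻¹ * (f v)⁻¹) * (f u * f v' * (f u)⁻¹ * (f v')⁻¹) := by
    intro u v v'
    rw [← comm_mul_right (hm u v')]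
    apply comm_congr p hc rfl
    rw [map_mul, hf, hf, hf, hι]
  refine ⟨AddMonoidHom.mk' (fun u => AddMonoidHom.mk' (fun v => Additive.ofMul ⟨_, hm u v⟩) ?_) ?_,
    ?_⟩
  · intro v v'
    rw [← ofMul_mul]
    congr 1
    exact Subtype.ext (h2 u v v')
  · intro u u'
    refine AddMonoidHom.ext fun v => ?_
    exact congrArg Additive.ofMul (Subtype.ext (h1 u u' v))
  · intro x y u v hx hy
    show x * y * x⁻¹ * y⁻¹ = f u * f v * (f u)⁻¹ * (f v)⁻¹
    exact comm_congr p hc (by rw [hx, hf]) (by rw [hy, hf])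

variable (p : E →* X) (hs : Function.Surjective p) (ι : V → X)
  (hι : ∀ u v, ι (u + v) = ι u * ι v) (β : V →+ V →+ Additive (Subgroup.center E))
  (hβ : ∀ (x y : E) (u v : V), p x = ι u → p y = ι v → x * y * x⁻¹ * y⁻¹ = ((β u v).toMul : E))

include hs hβ in
theorem beta_self (u : V) : β u u = 0 := by
  obtain ⟨x, hx⟩ := hs (ι u)
  have h := hβ x x u u hx hx
  have h1 : (((β u u).toMul : Subgroup.center E) : E) = 1 := by
    rw [← h]
    group
  have h2 : (β u u).toMul = 1 := Subtype.ext h1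
  exact h2

include hs hβ in
theorem beta_swap (u v : V) : β u v = - β v u := by
  have h := beta_self p hs ι β hβ (u + v)
  simp only [map_add, AddMonoidHom.add_apply] at h
  rw [beta_self p hs ι β hβ u, beta_self p hs ι β hβ v, zero_add, add_zero] at h
  exact eq_neg_of_add_eq_zero_right h

include hs hι hβ in
theorem beta_torsion {q : ℕ} (hq : ∀ a ∈ p.ker, a ^ q = 1) (u v : V) : q • β u v = 0 := by
  obtain ⟨x, hx⟩ := hs (ι u)
  obtain ⟨y, hy⟩ := hs (ι v)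
  have h := hβ x y u v hx hy
  have h1 : (((β u v).toMul : Subgroup.center E) : E) ^ q = 1 := by
    rw [← h]
    exact hq _ (comm_mem_ker p ι hι hx hy)
  have h2 : (β u v).toMul ^ q = 1 := Subtype.ext (by simpa using h1)
  exact h2

include hs hβ in
theorem beta_equiv (g : X) (ρ : V → V) (hρ : ∀ u, g * ι u * g⁻¹ = ι (ρ u)) (u v : V) :
    β (ρ u) (ρ v) = β u v := by
  obtain ⟨x, hx⟩ := hs (ι u)
  obtain ⟨y, hy⟩ := hs (ι v)
  obtain ⟨k, hk⟩ := hs g
  have h := hβ x y u v hx hy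
  have h' := hβ (k * x * k⁻¹) (k * y * k⁻¹) (ρ u) (ρ v)
    (by rw [map_mul, map_mul, map_inv, hx, hk, hρ]) (by rw [map_mul, map_mul, map_inv, hy, hk, hρ])
  have h1 : (((β (ρ u) (ρ v)).toMul : Subgroup.center E) : E)
      = (((β u v).toMul : Subgroup.center E) : E) := by
    rw [← h']
    have h2 : k * x * k⁻¹ * (k * y * k⁻¹) * (k * x * k⁻¹)⁻¹ * (k * y * k⁻¹)⁻¹
        = k * (x * y * x⁻¹ * y⁻¹) * k⁻¹ := by group
    rw [h2, h, Subgroup.mem_center_iff.1 (β u v).toMul.2 k]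
    group
  exact Subtype.ext h1

include hβ in
theorem beta_zero_comm {x y : E} {u v : V} (hx : p x = ι u) (hy : p y = ι v)
    (h : β u v = 0) : x * y = y * x := by
  have h1 := hβ x y u v hx hy
  rw [h] at h1
  have h2 : x * y * x⁻¹ * y⁻¹ = 1 := h1
  calc x * y = (x * y * x⁻¹ * y⁻¹) * (y * x) := by group
    _ = y * x := by rw [h2, one_mul]

include hβ in
theorem beta_zero_of_comm {x y : E} {u v : V} (hx : p x = ι u) (hy : p y = ι v)
    (h : x * y = y * x) : β u v = 0 := by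
  have h1 := hβ x y u v hx hy
  have h2 : x * y * x⁻¹ * y⁻¹ = 1 := by rw [h]; group
  rw [h2] at h1
  have h3 : (β u v).toMul = 1 := Subtype.ext h1.symm
  exact h3

/-- the norm of `m`: sum of `ρ ^ i m`, `i < n` -/
def nrm (ρ : V → V) (m : V) : ℕ → V
  | 0 => 0
  | n + 1 => nrm ρ m n + ρ^[n] m

include hι in
theorem mul_pow_iota (g : X) (ρ : V → V) (hρ : ∀ u, g * ι u * g⁻¹ = ι (ρ u)) (m : V) (n : ℕ) :
    (ι m * g) ^ n = ι (nrm ρ m n) * g ^ n := by
  have h0 : ι 0 = 1 := by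
    have h := hι 0 0
    rw [add_zero] at h
    exact left_eq_mul.1 h
  have hn : ∀ n : ℕ, g ^ n * ι m * (g ^ n)⁻¹ = ι (ρ^[n] m) := by
    intro n
    induction n with
    | zero => simp
    | succ n ih =>
      rw [Function.iterate_succ', Function.comp_apply, ← hρ, ← ih, pow_succ']
      group
  induction n with
  | zero => simp [nrm, h0]
  | succ n ih =>
    rw [pow_succ, ih]
    show ι (nrm ρ m n) * g ^ n * (ι m * g) = ι (nrm ρ m n + ρ^[n] m) * g ^ (n + 1)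
    rw [hι, ← hn, pow_succ]
    group

include hs hι hβ in
/-- the witness lemma: if `g ^ n = ι τ` and the norm of `m` vanishes then `β m τ = 0` -/
theorem beta_witness (hc : p.ker ≤ Subgroup.center E) (g : X) (ρ : V → V)
    (hρ : ∀ u, g * ι u * g⁻¹ = ι (ρ u)) (n : ℕ) (τ m : V) (hτ : g ^ n = ι τ)
    (hm : nrm ρ m n = 0) : β m τ = 0 := by
  obtain ⟨x, hx⟩ := hs (ι m)
  obtain ⟨k, hk⟩ := hs g
  have h0 : ι 0 = 1 := by
    have h := hι 0 0
    rw [add_zero] at h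
    exact left_eq_mul.1 h
  have h1 : p ((x * k) ^ n) = p (k ^ n) := by
    rw [map_pow, map_pow, map_mul, hx, hk, mul_pow_iota ι hι g ρ hρ m n, hm, h0, one_mul]
  have h2 : (k ^ n)⁻¹ * (x * k) ^ n ∈ Subgroup.center E :=
    hc (by rw [MonoidHom.mem_ker, map_mul, map_inv, h1, inv_mul_cancel])
  have h3 : (x * k) ^ n = k ^ n * ((k ^ n)⁻¹ * (x * k) ^ n) := by group
  have h4 : (x * k) * (x * k) ^ n = (x * k) ^ n * (x * k) := (Commute.self_pow (x * k) n).eq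
  obtain ⟨z, hz⟩ : ∃ z, z = (k ^ n)⁻¹ * (x * k) ^ n := ⟨_, rfl⟩
  rw [← hz] at h2 h3
  have hzc := fun g => Subgroup.mem_center_iff.1 h2 g
  rw [h3] at h4
  have h5 : x * k * k ^ n * z = k ^ n * (x * k) * z := by
    rw [mul_assoc (x * k), h4, mul_assoc (k ^ n), ← hzc (x * k), mul_assoc (k ^ n)]
  have h6 : x * k * k ^ n = k ^ n * (x * k) := mul_right_cancel h5
  have h7 : k * k ^ n = k ^ n * k := (Commute.self_pow k n).eq
  have h8 : x * k ^ n * k = k ^ n * x * k := by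
    rw [mul_assoc x, ← h7, ← mul_assoc, h6, mul_assoc]
  have h9 : x * k ^ n = k ^ n * x := mul_right_cancel h8
  exact beta_zero_of_comm p ι β hβ hx (by rw [map_pow, hk, hτ]) h9

end

end VRC.TR
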