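import Pool.Agent.Work.MP_332575_al.TR.Psi

set_option autoImplicit false

/-!
# Certificates for the vanishing of invariant alternating forms (odd torsion)
-/

open scoped IsMulCommutative

namespace VRC.TR

section

variable {A : Type} [AddCommGroup A]

/-- value of a formal combination of pairs -/
def ev (B : ℕ → ℕ → A) : List (ℤ × ℕ × ℕ) → A
  | [] => 0
  | t :: L => t.1 • B t.2.1 t.2.2 + ev B L

theorem ev_append (B : ℕ → ℕ → A) (L M : List (ℤ × ℕ × ℕ)) : ev B (L ++ M) = ev B L + ev B M := by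
  induction L with
  | nil => simp [ev]
  | cons t L ih => simp only [List.cons_append, ev, ih, add_assoc]

theorem ev_smul (B : ℕ → ℕ → A) (c : ℤ) (L : List (ℤ × ℕ × ℕ)) :
    ev B (L.map fun t => (c * t.1, t.2)) = c • ev B L := by
  induction L with
  | nil => simp [ev]
  | cons t L ih => simp only [List.map_cons, ev, ih, smul_add, mul_smul]

/-- formal product -/
def prd (x y : List (ℤ × ℕ)) : List (ℤ × ℕ × ℕ) :=
  x.flatMap fun s => y.map fun t => (s.1 * t.1, s.2, t.2)

/-- linear combination -/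
def lc {V : Type} [AddCommGroup V] (z : ℕ → V) : List (ℤ × ℕ) → V
  | [] => 0
  | t :: L => t.1 • z t.2 + lc z L

theorem beta_lc {V : Type} [AddCommGroup V] (β : V →+ V →+ A) (z : ℕ → V) (x y : List (ℤ × ℕ)) :
    β (lc z x) (lc z y) = ev (fun k l => β (z k) (z l)) (prd x y) := by
  have h1 : ∀ (s : ℤ × ℕ) (y : List (ℤ × ℕ)), β (s.1 • z s.2) (lc z y)
      = ev (fun k l => β (z k) (z l)) (y.map fun t => (s.1 * t.1, s.2, t.2)) := by
    intro s y
    induction y with
    | nil => simp [ev, lc]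
    | cons t y ih =>
      simp only [lc, List.map_cons, ev, map_add, ih]
      congr 1
      rw [map_zsmul, map_zsmul, AddMonoidHom.zsmul_apply, smul_smul, mul_comm]
  induction x with
  | nil => simp [ev, lc, prd]
  | cons s x ih =>
    rw [prd, List.flatMap_cons, ev_append, ← h1 s y]
    show β (s.1 • z s.2 + lc z x) (lc z y) = _
    rw [map_add, AddMonoidHom.add_apply, ih]
    rfl

/-- insertion of a term in a formal combination -/
def ins (c : ℤ) (i j : ℕ) : List (ℤ × ℕ × ℕ) → List (ℤ × ℕ × ℕ)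
  | [] => [(c, i, j)]
  | t :: L => if t.2.1 = i ∧ t.2.2 = j then (c + t.1, i, j) :: L else t :: ins c i j L

theorem ev_ins (B : ℕ → ℕ → A) (c : ℤ) (i j : ℕ) (L : List (ℤ × ℕ × ℕ)) :
    ev B (ins c i j L) = c • B i j + ev B L := by
  induction L with
  | nil => simp [ins, ev]
  | cons t L ih =>
    by_cases h : t.2.1 = i ∧ t.2.2 = j
    · rw [ins, if_pos h]
      simp only [ev]
      rw [h.1, h.2, add_smul, add_assoc]
    · rw [ins, if_neg h]
      simp only [ev, ih]
      abel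

/-- insertion with ordering of the pair; pairs with an index `≥ n` are dropped -/
def can (n : ℕ) (t : ℤ × ℕ × ℕ) (L : List (ℤ × ℕ × ℕ)) : List (ℤ × ℕ × ℕ) :=
  if n ≤ t.2.1 ∨ n ≤ t.2.2 ∨ t.2.1 = t.2.2 then L
  else if t.2.1 < t.2.2 then ins t.1 t.2.1 t.2.2 L else ins (-t.1) t.2.2 t.2.1 L

theorem ev_can (B : ℕ → ℕ → A) (n : ℕ) (hB : ∀ i j, n ≤ i ∨ n ≤ j → B i j = 0)
    (hs : ∀ i, B i i = 0) (ha : ∀ i j, B i j = - B j i) (t : ℤ × ℕ × ℕ) (L : List (ℤ × ℕ × ℕ)) :
    ev B (can n t L) = t.1 • B t.2.1 t.2.2 + ev B L := by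
  unfold can
  split_ifs with h1 h2
  · have h3 : B t.2.1 t.2.2 = 0 := by
      rcases h1 with h | h | h
      · exact hB _ _ (Or.inl h)
      · exact hB _ _ (Or.inr h)
      · rw [h]
        exact hs _
    rw [h3, smul_zero, zero_add]
  · rw [ev_ins]
  · rw [ev_ins, ha t.2.1 t.2.2, neg_smul, smul_neg]

/-- normal form -/
def nf (n : ℕ) : List (ℤ × ℕ × ℕ) → List (ℤ × ℕ × ℕ)
  | [] => []
  | t :: L => can n t (nf n L)

theorem ev_nf (B : ℕ → ℕ → A) (n : ℕ) (hB : ∀ i j, n ≤ i ∨ n ≤ j → B i j = 0)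
    (hs : ∀ i, B i i = 0) (ha : ∀ i j, B i j = - B j i) (L : List (ℤ × ℕ × ℕ)) :
    ev B (nf n L) = ev B L := by
  induction L with
  | nil => rfl
  | cons t L ih => rw [nf, ev_can B n hB hs ha, ih]; rfl

theorem ev_filter (B : ℕ → ℕ → A) (L : List (ℤ × ℕ × ℕ)) :
    ev B (L.filter fun t => decide (t.1 ≠ 0)) = ev B L := by
  induction L with
  | nil => rfl
  | cons t L ih =>
    by_cases h : t.1 = 0
    · rw [List.filter_cons_of_neg (by simp [h])]
      simp only [ev, h, zero_smul, zero_add, ih]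
    · rw [List.filter_cons_of_pos (by simp [h])]
      simp only [ev, ih]

/-- torsion prime to `q` -/
theorem zero_of_coprime {x : A} {q n : ℕ} (h1 : n • x = 0) (h2 : q • x = 0)
    (h : Nat.Coprime n q) : x = 0 := by
  have h3 : (Nat.gcd n q : ℤ) • x = 0 := by
    rw [Nat.gcd_eq_gcd_ab, add_smul, mul_comm, mul_smul, natCast_zsmul, h1, smul_zero, zero_add,
      mul_comm, mul_smul, natCast_zsmul, h2, smul_zero]
  rw [h] at h3
  simpa using h3

/-- the formal combination of relations given by a certificate; a relation is `(c, r)`, `r` a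
position in the list `R` -/
def comb (R : List (List (ℤ × ℕ × ℕ))) (C : List (ℤ × ℕ)) : List (ℤ × ℕ × ℕ) :=
  C.flatMap fun c => (R.getD c.2 []).map fun t => (c.1 * t.1, t.2)

theorem ev_comb (B : ℕ → ℕ → A) (R : List (List (ℤ × ℕ × ℕ))) (hR : ∀ L ∈ R, ev B L = 0)
    (C : List (ℤ × ℕ)) : ev B (comb R C) = 0 := by
  induction C with
  | nil => rfl
  | cons c C ih =>
    rw [comb, List.flatMap_cons, ev_append, ev_smul]
    have h : ev B (R.getD c.2 []) = 0 := by
      by_cases hc : c.2 < R.length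
      · rw [List.getD_eq_getElem _ _ hc]
        exact hR _ (List.getElem_mem hc)
      · rw [List.getD_eq_default _ _ (not_lt.1 hc)]
        rfl
    rw [h, smul_zero, zero_add]
    exact ih

/-- check of one certificate: `n • B i j` is the given combination of relations -/
def chk (n : ℕ) (R : List (List (ℤ × ℕ × ℕ))) (c : (ℕ × ℕ × ℕ) × List (ℤ × ℕ)) : Bool :=
  decide (((nf n (comb R c.2)).filter fun t => decide (t.1 ≠ 0)) = [((c.1.1 : ℤ), c.1.2)])
    && decide (c.1.1 = 1 ∨ c.1.1 = 2 ∨ c.1.1 = 4)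

theorem of_chk (B : ℕ → ℕ → A) (n : ℕ) (hB : ∀ i j, n ≤ i ∨ n ≤ j → B i j = 0)
    (hs : ∀ i, B i i = 0) (ha : ∀ i j, B i j = - B j i) {q : ℕ} (hq : ∀ i j, q • B i j = 0)
    (hodd : Nat.Coprime 2 q) (R : List (List (ℤ × ℕ × ℕ))) (hR : ∀ L ∈ R, ev B L = 0)
    (c : (ℕ × ℕ × ℕ) × List (ℤ × ℕ)) (h : chk n R c = true) : B c.1.2.1 c.1.2.2 = 0 := by
  unfold chk at h
  rw [Bool.and_eq_true, decide_eq_true_eq, decide_eq_true_eq] at h
  have h1 := ev_comb B R hR c.2
  rw [← ev_nf B n hB hs ha, ← ev_filter, h.1] at h1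
  simp only [ev, add_zero, natCast_zsmul] at h1
  refine zero_of_coprime h1 (hq _ _) ?_
  rcases h.2 with h2 | h2 | h2
  · rw [h2]
    exact Nat.coprime_one_left q
  · rw [h2]
    exact hodd
  · rw [h2]
    exact Nat.Coprime.pow_left 2 hodd

end

end VRC.TR
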