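import Pool.Agent.Work.MP_332575_al.TR.OddForm

set_option autoImplicit false

/-!
# Sparse integer linear algebra in dimension 36 (for kernel computations)
-/

namespace VRC.TR

/-- the lattice -/
abbrev V36 := Fin 36 → ℤ

/-- standard basis (zero for `36 ≤ k`) -/
def stdb (k : ℕ) : V36 := fun i => if (i : ℕ) = k then 1 else 0

/-- dense vector -/
def vec (l : List ℤ) : V36 := fun i => l.getD i 0

def addAt (c : ℤ) : ℕ → List ℤ → List ℤ
  | _, [] => []
  | 0, x :: l => (c + x) :: l
  | k + 1, x :: l => x :: addAt c k l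

theorem length_addAt (c : ℤ) (k : ℕ) (l : List ℤ) : (addAt c k l).length = l.length := by
  induction l generalizing k with
  | nil => cases k <;> rfl
  | cons x l ih =>
    cases k with
    | zero => rfl
    | succ k => simp [addAt, ih]

theorem getD_addAt (c : ℤ) (k : ℕ) (l : List ℤ) (i : ℕ) :
    (addAt c k l).getD i 0 = (if i = k ∧ k < l.length then c else 0) + l.getD i 0 := by
  induction l generalizing k i with
  | nil => cases k <;> simp [addAt]
  | cons x l ih =>
    cases k with
    | zero =>
      cases i with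
      | zero => simp [addAt]
      | succ i => simp [addAt]
    | succ k =>
      cases i with
      | zero => simp [addAt]
      | succ i =>
        simp only [addAt, List.getD_cons_succ, ih, List.length_cons]
        simp

theorem getD_rep (n i : ℕ) : (List.replicate n (0 : ℤ)).getD i 0 = 0 := by
  induction n generalizing i with
  | zero => rfl
  | succ n ih =>
    cases i with
    | zero => rfl
    | succ i => exact ih i

/-- dense form of a sparse vector -/
def dn (L : List (ℤ × ℕ)) : List ℤ := L.foldr (fun t l => addAt t.1 t.2 l) (List.replicate 36 0)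

theorem length_dn (L : List (ℤ × ℕ)) : (dn L).length = 36 := by
  induction L with
  | nil => simp [dn]
  | cons t L ih =>
    show (addAt t.1 t.2 (dn L)).length = 36
    rw [length_addAt, ih]

theorem vec_dn (L : List (ℤ × ℕ)) : vec (dn L) = lc stdb L := by
  induction L with
  | nil =>
    funext i
    show (List.replicate 36 (0 : ℤ)).getD i 0 = 0
    exact getD_rep 36 i
  | cons t L ih =>
    funext i
    show (addAt t.1 t.2 (dn L)).getD i 0 = (t.1 • stdb t.2 + lc stdb L) i
    rw [getD_addAt, length_dn, ← ih, Pi.add_apply, Pi.smul_apply, smul_eq_mul]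
    show _ = t.1 * (if (i : ℕ) = t.2 then 1 else 0) + (dn L).getD i 0
    congr 1
    by_cases h : (i : ℕ) = t.2
    · rw [if_pos h, mul_one, if_pos ⟨h, by rw [← h]; exact i.2⟩]
    · rw [if_neg h, mul_zero, if_neg (fun h' => h h'.1)]

theorem eq_of_dn {L M : List (ℤ × ℕ)} (h : dn L = dn M) : lc stdb L = lc stdb M := by
  rw [← vec_dn, ← vec_dn, h]

theorem lc_append {V : Type} [AddCommGroup V] (z : ℕ → V) (L M : List (ℤ × ℕ)) :
    lc z (L ++ M) = lc z L + lc z M := by
  induction L with
  | nil => simp [lc]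
  | cons t L ih => simp only [List.cons_append, lc, ih, add_assoc]

/-- scaling of a sparse vector -/
def scl (c : ℤ) (L : List (ℤ × ℕ)) : List (ℤ × ℕ) := L.map fun t => (c * t.1, t.2)

theorem lc_scl {V : Type} [AddCommGroup V] (z : ℕ → V) (c : ℤ) (L : List (ℤ × ℕ)) :
    lc z (scl c L) = c • lc z L := by
  induction L with
  | nil => simp [scl, lc]
  | cons t L ih =>
    show (c * t.1) • z t.2 + lc z (scl c L) = c • (t.1 • z t.2 + lc z L)
    rw [ih, smul_add, mul_smul]

/-- image of a sparse vector under a matrix given by sparse columns -/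
def msv (M : List (List (ℤ × ℕ))) (L : List (ℤ × ℕ)) : List (ℤ × ℕ) :=
  L.flatMap fun t => scl t.1 (M.getD t.2 [])

theorem lc_msv {V : Type} [AddCommGroup V] (z : ℕ → V) (M : List (List (ℤ × ℕ)))
    (L : List (ℤ × ℕ)) : lc z (msv M L) = lc (fun k => lc z (M.getD k [])) L := by
  induction L with
  | nil => simp [msv, lc]
  | cons t L ih =>
    have h1 : msv M (t :: L) = scl t.1 (M.getD t.2 []) ++ msv M L := by
      simp [msv]
    rw [h1, lc_append, lc_scl, ih]
    rfl

theorem map_lc {V W : Type} [AddCommGroup V] [AddCommGroup W] (f : V →+ W) (z : ℕ → V)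
    (L : List (ℤ × ℕ)) : f (lc z L) = lc (fun k => f (z k)) L := by
  induction L with
  | nil => simp [lc]
  | cons t L ih =>
    show f (t.1 • z t.2 + lc z L) = t.1 • f (z t.2) + lc (fun k => f (z k)) L
    rw [map_add, map_zsmul, ih]

/-- the endomorphism given by sparse columns -/
def act (M : List (List (ℤ × ℕ))) : V36 →+ V36 where
  toFun v := ∑ j : Fin 36, v j • lc stdb (M.getD j [])
  map_zero' := by simp
  map_add' u v := by simp [add_smul, Finset.sum_add_distrib]

theorem act_stdb (M : List (List (ℤ × ℕ))) {k : ℕ} (hk : k < 36) :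
    act M (stdb k) = lc stdb (M.getD k []) := by
  show ∑ j : Fin 36, (stdb k j) • lc stdb (M.getD j []) = _
  rw [Finset.sum_eq_single (⟨k, hk⟩ : Fin 36)]
  · simp [stdb]
  · intro j _ hj
    have : (j : ℕ) ≠ k := fun h => hj (Fin.ext h)
    simp [stdb, this]
  · intro h
    exact absurd (Finset.mem_univ _) h

theorem stdb_zero {k : ℕ} (hk : 36 ≤ k) : stdb k = 0 := by
  funext i
  have : (i : ℕ) ≠ k := by have := i.2; omega
  simp [stdb, this]

theorem act_lc (M : List (List (ℤ × ℕ))) (hM : M.length ≤ 36) (L : List (ℤ × ℕ)) :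
    act M (lc stdb L) = lc stdb (msv M L) := by
  rw [map_lc, lc_msv]
  congr 1
  funext k
  by_cases hk : k < 36
  · exact act_stdb M hk
  · rw [stdb_zero (not_lt.1 hk), map_zero, List.getD_eq_default _ _ (hM.trans (not_lt.1 hk))]
    rfl

theorem eq_sum_stdb (v : V36) : v = ∑ j : Fin 36, v j • stdb j := by
  funext i
  rw [Finset.sum_apply, Finset.sum_eq_single i]
  · simp [stdb]
  · intro j _ hj
    have : (i : ℕ) ≠ (j : ℕ) := fun h => hj (Fin.ext h.symm)
    simp [stdb, this]
  · intro h
    exact absurd (Finset.mem_univ _) h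

theorem mem_of_stdb (H : AddSubgroup V36) (h : ∀ k < 36, stdb k ∈ H) (v : V36) : v ∈ H := by
  rw [eq_sum_stdb v]
  exact AddSubgroup.sum_mem _ fun j _ => AddSubgroup.zsmul_mem _ (h j j.2) _

theorem hom_ext {W : Type} [AddCommGroup W] (f g : V36 →+ W) (h : ∀ k < 36, f (stdb k) = g (stdb k))
    (v : V36) : f v = g v := by
  have h1 : v ∈ (f - g).ker := by
    apply mem_of_stdb
    intro k hk
    rw [AddMonoidHom.mem_ker, AddMonoidHom.sub_apply, h k hk, sub_self]
  rw [AddMonoidHom.mem_ker, AddMonoidHom.sub_apply] at h1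
  exact sub_eq_zero.1 h1

/-- conjugation is given by the columns -/
theorem conj_act {X : Type} [Group X] (ι : V36 → X) (hι : ∀ u v, ι (u + v) = ι u * ι v) (g : X)
    (M : List (List (ℤ × ℕ)))
    (h : ∀ k < 36, g * ι (stdb k) * g⁻¹ = ι (lc stdb (M.getD k []))) (v : V36) :
    g * ι v * g⁻¹ = ι (act M v) := by
  let H : AddSubgroup V36 :=
    { carrier := {v | g * ι v * g⁻¹ = ι (act M v)}
      zero_mem' := by
        show g * ι 0 * g⁻¹ = ι (act M 0)
        rw [map_zero, iota_zero ι hι]
        group
      add_mem' := by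
        intro u v hu hv
        have hu' : g * ι u * g⁻¹ = ι (act M u) := hu
        have hv' : g * ι v * g⁻¹ = ι (act M v) := hv
        show g * ι (u + v) * g⁻¹ = ι (act M (u + v))
        rw [map_add, hι, hι, ← hu', ← hv']
        group
      neg_mem' := by
        intro u hu
        have hu' : g * ι u * g⁻¹ = ι (act M u) := hu
        show g * ι (-u) * g⁻¹ = ι (act M (-u))
        rw [map_neg, iota_neg ι hι, iota_neg ι hι, ← hu']
        group }
  have h1 : v ∈ H := by
    apply mem_of_stdb
    intro k hk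
    show g * ι (stdb k) * g⁻¹ = ι (act M (stdb k))
    rw [act_stdb M hk]
    exact h k hk
  exact h1

/-- sparse form of a dense vector -/
def spa : ℕ → List ℤ → List (ℤ × ℕ)
  | _, [] => []
  | k, x :: l => if x = 0 then spa (k + 1) l else (x, k) :: spa (k + 1) l

theorem lc_spa (k : ℕ) (l : List ℤ) (i : Fin 36) :
    lc stdb (spa k l) i = if k ≤ (i : ℕ) then l.getD (i - k) 0 else 0 := by
  induction l generalizing k with
  | nil => simp [spa, lc]
  | cons x l ih =>
    have h0 : spa k (x :: l) = if x = 0 then spa (k + 1) l else (x, k) :: spa (k + 1) l := rfl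
    have h1 : lc stdb (spa k (x :: l)) i = x * stdb k i + lc stdb (spa (k + 1) l) i := by
      rw [h0]
      split_ifs with h
      · rw [h, zero_mul, zero_add]
      · rfl
    rw [h1, ih]
    unfold stdb
    by_cases h2 : (i : ℕ) = k
    · rw [if_pos h2, if_neg (by omega), if_pos (by omega), h2]
      simp
    · rw [if_neg h2, mul_zero, zero_add]
      by_cases h3 : k + 1 ≤ (i : ℕ)
      · rw [if_pos h3, if_pos (by omega)]
        have h4 : (i : ℕ) - k = ((i : ℕ) - (k + 1)) + 1 := by omega
        rw [h4, List.getD_cons_succ]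
      · rw [if_neg h3, if_neg (by omega)]

/-- normalised image -/
def nsv (M : List (List (ℤ × ℕ))) (L : List (ℤ × ℕ)) : List (ℤ × ℕ) := spa 0 (dn (msv M L))

theorem act_nsv (M : List (List (ℤ × ℕ))) (hM : M.length ≤ 36) (L : List (ℤ × ℕ)) :
    act M (lc stdb L) = lc stdb (nsv M L) := by
  rw [act_lc M hM, ← vec_dn]
  funext i
  rw [nsv, lc_spa, if_pos (Nat.zero_le _)]
  rfl

/-- norm of a sparse vector -/
def nrmL (st : List (ℤ × ℕ) → List (ℤ × ℕ)) (L : List (ℤ × ℕ)) : ℕ → List (ℤ × ℕ)
  | 0 => []
  | n + 1 => nrmL st L n ++ st^[n] L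

theorem nrm_nrmL (ρ : V36 → V36) (st : List (ℤ × ℕ) → List (ℤ × ℕ))
    (h : ∀ L, ρ (lc stdb L) = lc stdb (st L)) (L : List (ℤ × ℕ)) (n : ℕ) :
    nrm ρ (lc stdb L) n = lc stdb (nrmL st L n) := by
  have h1 : ∀ n, ρ^[n] (lc stdb L) = lc stdb (st^[n] L) := by
    intro n
    induction n with
    | zero => rfl
    | succ n ih => rw [Function.iterate_succ_apply', Function.iterate_succ_apply', ih, h]
  induction n with
  | zero => rfl
  | succ n ih =>
    show nrm ρ (lc stdb L) n + ρ^[n] (lc stdb L) = lc stdb (nrmL st L n ++ st^[n] L)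
    rw [lc_append, ih, h1]

end VRC.TR
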