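import Pool.Agent.Work.MP_332575_al.TR.Forms

set_option autoImplicit false

/-!
# The commutator form of a central extension of odd exponent vanishes
-/

open scoped IsMulCommutative

namespace VRC.TR

theorem beta_conj {E X V : Type} [Group E] [Group X] [AddCommGroup V]
    (p : E →* X) (hs : Function.Surjective p) (ι : V → X)
    (β : V →+ V →+ Additive (Subgroup.center E))
    (hβ : ∀ (x y : E) (u v : V), p x = ι u → p y = ι v → x * y * x⁻¹ * y⁻¹ = ((β u v).toMul : E))
    (g : X) {u v u' v' : V} (hu : g * ι u * g⁻¹ = ι u') (hv : g * ι v * g⁻¹ = ι v') :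
    β u' v' = β u v := by
  obtain ⟨x, hx⟩ := hs (ι u)
  obtain ⟨y, hy⟩ := hs (ι v)
  obtain ⟨k, hk⟩ := hs g
  have h := hβ x y u v hx hy
  have h' := hβ (k * x * k⁻¹) (k * y * k⁻¹) u' v'
    (by rw [map_mul, map_mul, map_inv, hx, hk, hu]) (by rw [map_mul, map_mul, map_inv, hy, hk, hv])
  have h1 : (((β u' v').toMul : Subgroup.center E) : E)
      = (((β u v).toMul : Subgroup.center E) : E) := by
    rw [← h']
    have h2 : k * x * k⁻¹ * (k * y * k⁻¹) * (k * x * k⁻¹)⁻¹ * (k * y * k⁻¹)⁻¹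
        = k * (x * y * x⁻¹ * y⁻¹) * k⁻¹ := by group
    rw [h2, h, Subgroup.mem_center_iff.1 (β u v).toMul.2 k]
    group
  exact Subtype.ext h1

/-- the relations used by the certificates -/
def rels (colA colB : List (List (ℤ × ℕ))) (used : List (Bool × ℕ × ℕ)) (mz tz : List (ℤ × ℕ)) :
    List (List (ℤ × ℕ × ℕ)) :=
  (used.map fun t => prd ((bif t.1 then colA else colB).getD t.2.1 [])
    ((bif t.1 then colA else colB).getD t.2.2 []) ++ [(-1, t.2.1, t.2.2)]) ++ [prd mz tz]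

/-- Data for the vanishing of the form. -/
structure FormData (X V : Type) [Group X] [AddCommGroup V] (ι : V → X) where
  z : ℕ → V
  a : X
  b : X
  colA : List (List (ℤ × ℕ))
  colB : List (List (ℤ × ℕ))
  K : ℕ → X
  sg : ℕ → ℕ → ℤ
  x : X
  ρ : V → V
  τ : V
  m : V
  mz : List (ℤ × ℕ)
  tz : List (ℤ × ℕ)
  used : List (Bool × ℕ × ℕ)
  certs : List ((ℕ × ℕ × ℕ) × List (ℤ × ℕ))
  hz : ∀ l, 36 ≤ l → z l = 0
  hA : ∀ i < 15, a * ι (z i) * a⁻¹ = ι (lc z (colA.getD i []))
  hB : ∀ i < 15, b * ι (z i) * b⁻¹ = ι (lc z (colB.getD i []))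
  hK : ∀ i < 11, ∀ l < 36, K i * ι (z l) * (K i)⁻¹ = ι (sg i l • z l)
  hsg : ∀ l < 36, ∀ l' < 36, l ≠ l' → (15 ≤ l ∨ 15 ≤ l') → ∃ i < 11, sg i l * sg i l' = -1
  hρ : ∀ u, x * ι u * x⁻¹ = ι (ρ u)
  hτ : x ^ 6 = ι τ
  hm : nrm ρ m 6 = 0
  hmz : 2 • m = lc z mz
  htz : 2 • τ = lc z tz
  hused : ∀ t ∈ used, t.2.1 < 15 ∧ t.2.2 < 15
  hcert : ∀ c ∈ certs, chk 15 (rels colA colB used mz tz) c = true
  hcov : ∀ i < 15, ∀ j < 15, i < j → ∃ c ∈ certs, c.1.2.1 = i ∧ c.1.2.2 = j
  hspan : ∀ v : V, ∃ L, 4 • v = lc z L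

section

variable {E X V : Type} [Group E] [Group X] [AddCommGroup V]

theorem lc_zero_right {A : Type} [AddCommGroup A] (β : V →+ V →+ A) (z : ℕ → V) (u : V)
    (h : ∀ l, β u (z l) = 0) (L : List (ℤ × ℕ)) : β u (lc z L) = 0 := by
  induction L with
  | nil => simp [lc]
  | cons t L ih =>
    show β u (t.1 • z t.2 + lc z L) = 0
    rw [map_add, map_zsmul, h, smul_zero, ih, zero_add]

theorem lc_zero_left {A : Type} [AddCommGroup A] (β : V →+ V →+ A) (z : ℕ → V)
    (h : ∀ k l, β (z k) (z l) = 0) (L M : List (ℤ × ℕ)) : β (lc z L) (lc z M) = 0 := by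
  apply lc_zero_right
  intro l
  induction L with
  | nil => simp [lc]
  | cons t L ih =>
    show β (t.1 • z t.2 + lc z L) (z l) = 0
    rw [map_add, AddMonoidHom.add_apply, map_zsmul, AddMonoidHom.zsmul_apply, h, smul_zero, ih,
      zero_add]

/-- For odd `q` the form vanishes. -/
theorem FormData.beta_zero {ι : V → X} (D : FormData X V ι)
    (hι : ∀ u v, ι (u + v) = ι u * ι v) (p : E →* X) (hs : Function.Surjective p)
    (hc : p.ker ≤ Subgroup.center E) (β : V →+ V →+ Additive (Subgroup.center E))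
    (hβ : ∀ (x y : E) (u v : V), p x = ι u → p y = ι v → x * y * x⁻¹ * y⁻¹ = ((β u v).toMul : E))
    {q : ℕ} (hq : ∀ a ∈ p.ker, a ^ q = 1) (hodd : Nat.Coprime 2 q) (u v : V) : β u v = 0 := by
  have htor : ∀ u v, q • β u v = 0 := beta_torsion p hs ι hι β hβ hq
  have hself : ∀ u, β u u = 0 := beta_self p hs ι β hβ
  have hswap : ∀ u v, β u v = - β v u := beta_swap p hs ι β hβ
  -- the lines
  have hline : ∀ i j, 15 ≤ i ∨ 15 ≤ j → β (D.z i) (D.z j) = 0 := by
    intro i j hij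
    by_cases h1 : i = j
    · rw [h1]
      exact hself _
    by_cases h2 : 36 ≤ i
    · rw [D.hz i h2, map_zero, AddMonoidHom.zero_apply]
    by_cases h3 : 36 ≤ j
    · rw [D.hz j h3, map_zero]
    obtain ⟨k, hk, hkk⟩ := D.hsg i (not_le.1 h2) j (not_le.1 h3) h1 hij
    have h4 := beta_conj p hs ι β hβ (D.K k) (D.hK k hk i (not_le.1 h2))
      (D.hK k hk j (not_le.1 h3))
    rw [map_zsmul, map_zsmul, AddMonoidHom.zsmul_apply, smul_smul, mul_comm, hkk] at h4
    have h5 : 2 • β (D.z i) (D.z j) = 0 := by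
      rw [neg_smul, one_smul] at h4
      rw [two_nsmul]
      nth_rewrite 1 [← h4]
      exact neg_add_cancel _
    exact zero_of_coprime h5 (htor _ _) hodd
  -- the relations
  have hrel : ∀ L ∈ rels D.colA D.colB D.used D.mz D.tz,
      ev (fun k l => β (D.z k) (D.z l)) L = 0 := by
    intro L hL
    unfold rels at hL
    rw [List.mem_append] at hL
    rcases hL with hL | hL
    · obtain ⟨t, ht, rfl⟩ := List.mem_map.1 hL
      obtain ⟨h1, h2⟩ := D.hused t ht
      rw [ev_append, ← beta_lc]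
      have h3 : β (lc D.z ((bif t.1 then D.colA else D.colB).getD t.2.1 []))
          (lc D.z ((bif t.1 then D.colA else D.colB).getD t.2.2 []))
          = β (D.z t.2.1) (D.z t.2.2) := by
        rcases t.1 with _ | _
        · exact beta_conj p hs ι β hβ D.b (D.hB _ h1) (D.hB _ h2)
        · exact beta_conj p hs ι β hβ D.a (D.hA _ h1) (D.hA _ h2)
      rw [h3]
      simp [ev]
    · rw [List.mem_singleton] at hL
      rw [hL, ← beta_lc, ← D.hmz, ← D.htz, map_nsmul, map_nsmul, AddMonoidHom.nsmul_apply,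
        beta_witness p hs ι hι β hβ hc D.x D.ρ D.hρ 6 D.τ D.m D.hτ D.hm, smul_zero, smul_zero]
  -- all the pairs
  have hall : ∀ i j, β (D.z i) (D.z j) = 0 := by
    have hlt : ∀ i j, i < j → β (D.z i) (D.z j) = 0 := by
      intro i j hij
      by_cases h1 : 15 ≤ j
      · exact hline i j (Or.inr h1)
      · obtain ⟨c, hcm, hci, hcj⟩ := D.hcov i (lt_trans hij (not_le.1 h1)) j (not_le.1 h1) hij
        have h2 := of_chk (fun k l => β (D.z k) (D.z l)) 15 hline (fun i => hself _)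
          (fun i j => hswap _ _) (fun i j => htor _ _) hodd _ hrel c (D.hcert c hcm)
        rw [hci, hcj] at h2
        exact h2
    intro i j
    rcases lt_trichotomy i j with h | h | h
    · exact hlt i j h
    · rw [h]
      exact hself _
    · rw [hswap, hlt j i h, neg_zero]
  obtain ⟨L, hL⟩ := D.hspan u
  obtain ⟨M, hM⟩ := D.hspan v
  have h1 := lc_zero_left β D.z hall L M
  rw [← hL, ← hM, map_nsmul, map_nsmul, AddMonoidHom.nsmul_apply, smul_smul] at h1
  refine zero_of_coprime h1 (htor _ _) ?_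
  exact Nat.Coprime.pow_left 4 hodd

end

end VRC.TR
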