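import Pool.Agent.Work.MP_332575_al.TR.Beta

set_option autoImplicit false

/-!
# Central extensions of odd prime exponent: the reduction to the commutator form
-/

open scoped IsMulCommutative

namespace VRC.TR

section

variable {E X V : Type} [Group E] [Group X] [AddCommGroup V]

theorem iota_zero (ι : V → X) (hι : ∀ u v, ι (u + v) = ι u * ι v) : ι 0 = 1 := by
  have h := hι 0 0
  rw [add_zero] at h
  exact left_eq_mul.1 h

theorem iota_neg (ι : V → X) (hι : ∀ u v, ι (u + v) = ι u * ι v) (u : V) : ι (-u) = (ι u)⁻¹ := by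
  have h := hι (-u) u
  rw [neg_add_cancel, iota_zero ι hι] at h
  exact eq_inv_of_mul_eq_one_left h.symm

theorem iota_nsmul (ι : V → X) (hι : ∀ u v, ι (u + v) = ι u * ι v) (n : ℕ) (u : V) :
    ι (n • u) = ι u ^ n := by
  induction n with
  | zero => rw [zero_nsmul, pow_zero, iota_zero ι hι]
  | succ n ih => rw [succ_nsmul, hι, ih, pow_succ]

/-- the vectors all of whose lifts commute with `s` -/
def cen (p : E →* X) (hs : Function.Surjective p) (hc : p.ker ≤ Subgroup.center E) (ι : V → X)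
    (hι : ∀ u v, ι (u + v) = ι u * ι v) (s : E) : AddSubgroup V where
  carrier := {v | ∀ x : E, p x = ι v → s * x = x * s}
  zero_mem' := by
    intro x hx
    rw [iota_zero ι hι] at hx
    exact Subgroup.mem_center_iff.1 (hc hx) s
  add_mem' := by
    intro u v hu hv x hx
    obtain ⟨y, hy⟩ := hs (ι u)
    have h1 := hu y hy
    have h2 := hv (y⁻¹ * x) (by rw [map_mul, map_inv, hx, hy, hι]; group)
    calc s * x = (s * y) * (y⁻¹ * x) := by group
      _ = y * (s * (y⁻¹ * x)) := by rw [h1]; group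
      _ = x * s := by rw [h2]; group
  neg_mem' := by
    intro u hu x hx
    have h1 := hu x⁻¹ (by rw [map_inv, hx, iota_neg ι hι, inv_inv])
    calc s * x = x * (x⁻¹ * s) * x := by group
      _ = x * s := by rw [← h1]; group

variable (p : E →* X) (hs : Function.Surjective p) (hc : p.ker ≤ Subgroup.center E) (ι : V → X)
  (hι : ∀ u v, ι (u + v) = ι u * ι v)
  (hab : ∀ (x y : E) (u v : V), p x = ι u → p y = ι v → x * y = y * x)

include hs hc hι in
theorem tau_mem_cen (s : E) (n : ℕ) (τ : V) (hτ : p s ^ n = ι τ) : τ ∈ cen p hs hc ι hι s := by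
  intro x hx
  have h1 : (s ^ n)⁻¹ * x ∈ Subgroup.center E :=
    hc (by rw [MonoidHom.mem_ker, map_mul, map_inv, map_pow, hτ, hx]; group)
  have h2 := Subgroup.mem_center_iff.1 h1 s
  have h3 : s * s ^ n = s ^ n * s := (Commute.self_pow s n).eq
  calc s * x = s * s ^ n * ((s ^ n)⁻¹ * x) := by group
    _ = s ^ n * (s * ((s ^ n)⁻¹ * x)) := by rw [h3]; group
    _ = x * s := by rw [h2]; group

include hab in
theorem nrm_mem_cen (s : E) (ρ : V → V) (hρ : ∀ u, p s * ι u * (p s)⁻¹ = ι (ρ u)) (n : ℕ) (τ m : V)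
    (hτ : p s ^ n = ι τ) : nrm ρ m n ∈ cen p hs hc ι hι s := by
  obtain ⟨y, hy⟩ := hs (ι m)
  -- `(y s) ^ n` lies over `ι (nrm + τ)`
  have h1 : p ((y * s) ^ n) = ι (nrm ρ m n + τ) := by
    rw [map_pow, map_mul, hy, mul_pow_iota ι hι (p s) ρ hρ m n, hτ, hι]
  have h2 : (y * s) * (y * s) ^ n = (y * s) ^ n * (y * s) := (Commute.self_pow (y * s) n).eq
  have h3 : y * (y * s) ^ n = (y * s) ^ n * y := hab _ _ _ _ hy h1
  have h4 : s * (y * s) ^ n = (y * s) ^ n * s := by
    have h5 : y * (s * (y * s) ^ n) = y * ((y * s) ^ n * s) := by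
      rw [← mul_assoc, h2, ← mul_assoc, ← mul_assoc, h3]
    exact mul_left_cancel h5
  have h6 : nrm ρ m n + τ ∈ cen p hs hc ι hι s := by
    intro x hx
    have h7 : ((y * s) ^ n)⁻¹ * x ∈ Subgroup.center E :=
      hc (by rw [MonoidHom.mem_ker, map_mul, map_inv, h1, hx]; group)
    have h8 := Subgroup.mem_center_iff.1 h7 s
    calc s * x = s * (y * s) ^ n * (((y * s) ^ n)⁻¹ * x) := by group
      _ = (y * s) ^ n * (s * (((y * s) ^ n)⁻¹ * x)) := by rw [h4]; group
      _ = x * s := by rw [h8]; group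
  have h9 := AddSubgroup.sub_mem _ h6 (tau_mem_cen p hs hc ι hι s n τ hτ)
  rwa [add_sub_cancel_right] at h9

/-- a multiple prime to `q` suffices -/
theorem mem_cen_of_smul {q : ℕ} (hq : ∀ a ∈ p.ker, a ^ q = 1) (s : E) (v : V)
    (hv : p s * ι v * (p s)⁻¹ = ι v) (N : ℕ) (hN : Nat.Coprime N q)
    (h : N • v ∈ cen p hs hc ι hι s) : v ∈ cen p hs hc ι hι s := by
  intro x hx
  have h1 : s * x * s⁻¹ * x⁻¹ ∈ p.ker := by
    rw [MonoidHom.mem_ker, map_mul, map_mul, map_mul, map_inv, map_inv, hx, hv]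
    group
  have hz := fun g => Subgroup.mem_center_iff.1 (hc h1) g
  obtain ⟨z, hzd⟩ : ∃ z, z = s * x * s⁻¹ * x⁻¹ := ⟨_, rfl⟩
  rw [← hzd] at hz h1
  have h2 : ∀ n : ℕ, s * x ^ n * s⁻¹ = z ^ n * x ^ n := by
    intro n
    induction n with
    | zero => simp
    | succ n ih =>
      calc s * x ^ (n + 1) * s⁻¹ = (s * x ^ n * s⁻¹) * (s * x * s⁻¹ * x⁻¹) * x := by
            rw [pow_succ]; group
        _ = z ^ n * x ^ n * z * x := by rw [ih, hzd]
        _ = z ^ n * (z * x ^ n) * x := by rw [mul_assoc (z ^ n), hz (x ^ n)]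
        _ = z ^ (n + 1) * x ^ (n + 1) := by rw [pow_succ, pow_succ]; group
  have h3 : s * x ^ N = x ^ N * s := h (x ^ N) (by rw [map_pow, hx, iota_nsmul ι hι])
  have h4 : z ^ N = 1 := by
    have h5 := h2 N
    rw [h3, mul_inv_cancel_right] at h5
    exact (mul_eq_right.1 h5.symm)
  have h6 : z = 1 := by
    have h7 := pow_gcd_eq_one.2 ⟨h4, hq z h1⟩
    rw [hN, pow_one] at h7
    exact h7
  calc s * x = z * (x * s) := by rw [hzd]; group
    _ = x * s := by rw [h6, one_mul]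

end

section

variable {E X V : Type} [Group E] [Group X] [AddCommGroup V]

/-- the subgroup `ι V` -/
def img (ι : V → X) (hι : ∀ u v, ι (u + v) = ι u * ι v) : Subgroup X where
  carrier := Set.range ι
  one_mem' := ⟨0, iota_zero ι hι⟩
  mul_mem' := by
    rintro _ _ ⟨u, rfl⟩ ⟨v, rfl⟩
    exact ⟨u + v, hι u v⟩
  inv_mem' := by
    rintro _ ⟨u, rfl⟩
    exact ⟨-u, iota_neg ι hι u⟩

theorem mem_img (ι : V → X) (hι : ∀ u v, ι (u + v) = ι u * ι v) {g : X} :
    g ∈ img ι hι ↔ ∃ v, ι v = g := Iff.rfl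

/-- index of `M ⊔ ⟨s⟩` -/
theorem index_sup (M : Subgroup X) [M.Normal] (hM : M.index ≠ 0) {q r : ℕ} (hq : q.Prime)
    (hi : M.index ∣ q * r) (hr : Nat.Coprime q r) (s : X) (hsq : s ^ q ∈ M) (hsM : s ∉ M) :
    (M ⊔ Subgroup.zpowers s).index ≠ 0 ∧ Nat.Coprime q (M ⊔ Subgroup.zpowers s).index := by
  have h1 : M.relIndex (M ⊔ Subgroup.zpowers s) = q := by
    rw [Subgroup.relIndex_sup_left]
    have h2 := Subgroup.relIndex_ker (Subgroup.zpowers s) (QuotientGroup.mk' M)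
    rw [QuotientGroup.ker_mk'] at h2
    rw [h2, MonoidHom.map_zpowers, Nat.card_zpowers]
    have : Fact q.Prime := ⟨hq⟩
    apply orderOf_eq_prime
    · rw [← map_pow]
      exact (QuotientGroup.eq_one_iff _).2 hsq
    · intro h3
      exact hsM ((QuotientGroup.eq_one_iff _).1 h3)
  have h4 := Subgroup.relIndex_mul_index (show M ≤ M ⊔ Subgroup.zpowers s from le_sup_left)
  rw [h1] at h4
  constructor
  · intro h5
    rw [h5, mul_zero] at h4
    exact hM h4.symm
  · rw [← h4] at hi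
    exact Nat.Coprime.coprime_dvd_right (Nat.dvd_of_mul_dvd_mul_left hq.pos hi) hr

/-- The kernel is trivial when the form vanishes and `q` does not divide the index. -/
theorem ker_trivial_coprime (hE : commutator E = ⊤) (p : E →* X) (hs : Function.Surjective p)
    (hc : p.ker ≤ Subgroup.center E) {q : ℕ} (hq : ∀ a ∈ p.ker, a ^ q = 1) (ι : V → X)
    (hι : ∀ u v, ι (u + v) = ι u * ι v) (hM : (img ι hι).index ≠ 0)
    (hco : Nat.Coprime q (img ι hι).index)
    (hab : ∀ (x y : E) (u v : V), p x = ι u → p y = ι v → x * y = y * x) : ∀ a ∈ p.ker, a = 1 := by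
  apply ker_of_coprime hE p hs hc hq (img ι hι) hM hco
  rintro x y ⟨u, hu⟩ ⟨v, hv⟩
  exact hab x y u v hu.symm hv.symm

/-- The kernel is trivial when the form vanishes and the Tate group of an element `s` of order `q`
modulo `M` is generated by `s ^ q`. -/
theorem ker_trivial_cyclic (hE : commutator E = ⊤) (p : E →* X) (hs : Function.Surjective p)
    (hc : p.ker ≤ Subgroup.center E) {q r : ℕ} (hqp : q.Prime) (hq : ∀ a ∈ p.ker, a ^ q = 1)
    (ι : V → X) (hι : ∀ u v, ι (u + v) = ι u * ι v) (hinj : Function.Injective ι)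
    (hnor : ∀ (g : X) (u : V), ∃ v, g * ι u * g⁻¹ = ι v)
    (hM : (img ι hι).index ≠ 0) (hi : (img ι hι).index ∣ q * r) (hr : Nat.Coprime q r)
    (hab : ∀ (x y : E) (u v : V), p x = ι u → p y = ι v → x * y = y * x)
    (s : X) (ρ : V → V) (hρ : ∀ u, s * ι u * s⁻¹ = ι (ρ u)) (τ : V) (hτ : s ^ q = ι τ)
    (hsM : ∀ v, s ≠ ι v) (N : ℕ) (hN : Nat.Coprime N q)
    (hfix : ∀ v, ρ v = v → ∃ (u : V) (d : ℤ), N • v = nrm ρ u q + d • τ) :
    ∀ a ∈ p.ker, a = 1 := by
  have hnorm : (img ι hι).Normal := by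
    constructor
    rintro _ ⟨u, rfl⟩ g
    obtain ⟨v, hv⟩ := hnor g u
    exact ⟨v, hv.symm⟩
  obtain ⟨h1, h2⟩ := index_sup (img ι hι) hM hqp hi hr s ⟨τ, hτ.symm⟩
    (by rintro ⟨v, hv⟩; exact hsM v hv.symm)
  obtain ⟨k, hk⟩ := hs s
  refine ker_of_cyclic hE p hs hc hq (img ι hι) (fun g n hn => hnorm.conj_mem n hn g) ?_ k
    (img ι hι ⊔ Subgroup.zpowers s) ?_ h1 h2 ?_
  · rintro x y ⟨u, hu⟩ ⟨v, hv⟩
    exact hab x y u v hu.symm hv.symm
  · intro y hy
    obtain ⟨m, hm, z, hz, hmz⟩ := Subgroup.mem_sup_of_normal_left.1 hy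
    obtain ⟨j, hj⟩ := Subgroup.mem_zpowers_iff.1 hz
    refine ⟨m, hm, j, ?_⟩
    rw [hk, hj, hmz]
  · rintro n ⟨v, hv⟩ hnk
    have hkv : p k * ι v * (p k)⁻¹ = ι v := by
      rw [MonoidHom.mem_ker, map_mul, map_mul, map_mul, map_inv, map_inv, ← hv] at hnk
      exact mul_inv_eq_one.1 hnk
    have hρv : ρ v = v := by
      rw [hk, hρ] at hkv
      exact hinj hkv
    obtain ⟨u, d, hud⟩ := hfix v hρv
    have hmem : v ∈ cen p hs hc ι hι k := by
      apply mem_cen_of_smul p hs hc ι hι hq k v hkv N hN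
      rw [hud]
      apply AddSubgroup.add_mem
      · exact nrm_mem_cen p hs hc ι hι hab k ρ (by rw [hk]; exact hρ) q τ u (by rw [hk]; exact hτ)
      · exact AddSubgroup.zsmul_mem _
          (tau_mem_cen p hs hc ι hι k q τ (by rw [hk]; exact hτ)) d
    have h3 : k * n = n * k := hmem n hv.symm
    rw [h3]
    group

end

end VRC.TR
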