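import Mathlib

set_option autoImplicit false

/-!
# Transfer in perfect central extensions

`E` perfect, `a` central with `a ^ q = 1`, `Y` a subgroup of finite index prime to `q`: then `a` lies
in the commutator subgroup of `Y`. Consequences for central extensions of prime order `q` of a group
with an abelian normal subgroup `M` of finite index.
-/

open scoped commutatorElement

namespace VRC.TR

/-- Transfer: central elements of order dividing `q` in a perfect group are in the commutator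
subgroup of each subgroup of finite index prime to `q`. -/
theorem mem_commutator {E : Type} [Group E] (hE : commutator E = ⊤) (Y : Subgroup E)
    (hY : Y.index ≠ 0) {a : E} (ha : ∀ g : E, g * a = a * g) {q : ℕ} (haq : a ^ q = 1)
    (hco : Nat.Coprime q Y.index) : a ∈ ⁅Y, Y⁆ := by
  have : Y.FiniteIndex := ⟨hY⟩
  have hk : ∀ k : ℕ, ∀ g : E, g * a ^ k = a ^ k * g := fun k g =>
    (Commute.pow_right (show Commute g a from ha g) k)
  have key : ∀ (k : ℕ) (g₀ : E), g₀⁻¹ * a ^ k * g₀ ∈ Y → g₀⁻¹ * a ^ k * g₀ = a ^ k := by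
    intro k g₀ _
    rw [hk k g₀⁻¹, inv_mul_cancel_right]
  have h1 := MonoidHom.transfer_eq_pow (H := Y) (Abelianization.of : Y →* Abelianization Y) a key
  have h2 : MonoidHom.transfer (H := Y) (Abelianization.of : Y →* Abelianization Y) a = 1 := by
    have h3 : a ∈ commutator E := by
      rw [hE]
      exact Subgroup.mem_top a
    exact Abelianization.commutator_subset_ker _ h3
  rw [h2] at h1
  have h4 : (⟨a ^ Y.index, MonoidHom.transfer_eq_pow_aux a key⟩ : Y) ∈ commutator Y :=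
    (QuotientGroup.eq_one_iff _).1 h1.symm
  have h5 : a ^ Y.index ∈ ⁅Y, Y⁆ := by
    have h6 := Subgroup.mem_map_of_mem Y.subtype h4
    rw [Subgroup.map_subtype_commutator] at h6
    exact h6
  -- Bezout
  have h7 : a ^ (Nat.gcd q Y.index : ℤ) ∈ ⁅Y, Y⁆ := by
    rw [Nat.gcd_eq_gcd_ab, zpow_add, zpow_mul, zpow_mul, zpow_natCast, zpow_natCast, haq, one_zpow,
      one_mul]
    exact Subgroup.zpow_mem _ h5 _
  rw [hco] at h7
  simpa using h7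

section

variable {E X : Type} [Group E] [Group X]

/-- primes not dividing the index of `M` -/
theorem ker_of_coprime (hE : commutator E = ⊤) (p : E →* X) (hs : Function.Surjective p)
    (hc : p.ker ≤ Subgroup.center E) {q : ℕ} (hq : ∀ a ∈ p.ker, a ^ q = 1) (M : Subgroup X)
    (hM : M.index ≠ 0) (hco : Nat.Coprime q M.index)
    (hβ : ∀ x y : E, p x ∈ M → p y ∈ M → x * y = y * x) : ∀ a ∈ p.ker, a = 1 := by
  intro a ha
  have hidx : (M.comap p).index = M.index := Subgroup.index_comap_of_surjective M hs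
  have h1 : a ∈ ⁅M.comap p, M.comap p⁆ := by
    apply mem_commutator hE (M.comap p) (by rw [hidx]; exact hM) (q := q)
    · intro g
      exact Subgroup.mem_center_iff.1 (hc ha) g
    · exact hq a ha
    · rw [hidx]
      exact hco
  have h2 : ⁅M.comap p, M.comap p⁆ ≤ ⊥ := by
    rw [Subgroup.commutator_le]
    intro x hx y hy
    rw [Subgroup.mem_bot, commutatorElement_eq_one_iff_mul_comm]
    exact hβ x y hx hy
  exact Subgroup.mem_bot.1 (h2 h1)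

/-- the elements `s n s⁻¹ n⁻¹`, `n` in the abelian normal subgroup `N` -/
def cmS (s : E) (N : Subgroup E) (hN : ∀ g : E, ∀ n ∈ N, g * n * g⁻¹ ∈ N)
    (hab : ∀ x ∈ N, ∀ y ∈ N, x * y = y * x) : Subgroup E where
  carrier := {x | ∃ n ∈ N, x = s * n * s⁻¹ * n⁻¹}
  one_mem' := ⟨1, N.one_mem, by group⟩
  mul_mem' := by
    rintro _ _ ⟨n, hn, rfl⟩ ⟨m, hm, rfl⟩
    refine ⟨n * m, N.mul_mem hn hm, ?_⟩
    have h1 : n⁻¹ * (s * m * s⁻¹) = (s * m * s⁻¹) * n⁻¹ :=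
      hab _ (N.inv_mem hn) _ (hN s m hm)
    have h2 : n⁻¹ * m⁻¹ = m⁻¹ * n⁻¹ := hab _ (N.inv_mem hn) _ (N.inv_mem hm)
    calc s * n * s⁻¹ * n⁻¹ * (s * m * s⁻¹ * m⁻¹)
        = s * n * s⁻¹ * (n⁻¹ * (s * m * s⁻¹)) * m⁻¹ := by group
      _ = s * n * s⁻¹ * (s * m * s⁻¹) * (n⁻¹ * m⁻¹) := by rw [h1]; group
      _ = s * (n * m) * s⁻¹ * (n * m)⁻¹ := by rw [h2]; group
  inv_mem' := by
    rintro _ ⟨n, hn, rfl⟩
    refine ⟨n⁻¹, N.inv_mem hn, ?_⟩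
    have h1 : n * (s * n⁻¹ * s⁻¹) = (s * n⁻¹ * s⁻¹) * n :=
      hab _ hn _ (hN s _ (N.inv_mem hn))
    calc (s * n * s⁻¹ * n⁻¹)⁻¹ = n * (s * n⁻¹ * s⁻¹) := by group
      _ = s * n⁻¹ * s⁻¹ * n⁻¹⁻¹ := by rw [h1, inv_inv]

theorem mem_cmS_zpow (s : E) (N : Subgroup E) (hN : ∀ g : E, ∀ n ∈ N, g * n * g⁻¹ ∈ N)
    (hab : ∀ x ∈ N, ∀ y ∈ N, x * y = y * x) (k : ℤ) {n : E} (hn : n ∈ N) :
    s ^ k * n * (s ^ k)⁻¹ * n⁻¹ ∈ cmS s N hN hab := by
  induction k with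
  | zero =>
    rw [zpow_zero, one_mul, inv_one, mul_one, mul_inv_cancel]
    exact Subgroup.one_mem _
  | succ k ih =>
    have h1 : s ^ ((k : ℤ) + 1) * n * (s ^ ((k : ℤ) + 1))⁻¹ * n⁻¹
        = (s * (s ^ (k : ℤ) * n * (s ^ (k : ℤ))⁻¹) * s⁻¹ * (s ^ (k : ℤ) * n * (s ^ (k : ℤ))⁻¹)⁻¹)
          * (s ^ (k : ℤ) * n * (s ^ (k : ℤ))⁻¹ * n⁻¹) := by
      rw [zpow_add, zpow_one, (Commute.zpow_self s k).eq]
      group
    rw [h1]
    exact Subgroup.mul_mem _ ⟨_, hN _ n hn, rfl⟩ ih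
  | pred k ih =>
    have hu : s ^ (-(k : ℤ) - 1) * n * (s ^ (-(k : ℤ) - 1))⁻¹ ∈ N := hN _ n hn
    have h2 : s * (s ^ (-(k : ℤ) - 1) * n * (s ^ (-(k : ℤ) - 1))⁻¹) * s⁻¹
        = s ^ (-(k : ℤ)) * n * (s ^ (-(k : ℤ)))⁻¹ := by
      have h3 : s ^ (-(k : ℤ)) = s * s ^ (-(k : ℤ) - 1) := by
        rw [← zpow_one_add]
        congr 1
        ring
      rw [h3]
      group
    have h4 : (s * (s ^ (-(k : ℤ) - 1) * n * (s ^ (-(k : ℤ) - 1))⁻¹) * s⁻¹ *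
        (s ^ (-(k : ℤ) - 1) * n * (s ^ (-(k : ℤ) - 1))⁻¹)⁻¹)⁻¹ ∈ cmS s N hN hab :=
      Subgroup.inv_mem _ ⟨_, hu, rfl⟩
    have h5 := Subgroup.mul_mem _ h4 ih
    convert h5 using 1
    rw [h2, mul_inv_rev, inv_inv]
    have h6 : s ^ (-(k : ℤ)) * n * (s ^ (-(k : ℤ)))⁻¹ ∈ N := hN _ n hn
    group

theorem commutator_le_cmS (s : E) (N : Subgroup E) (hN : ∀ g : E, ∀ n ∈ N, g * n * g⁻¹ ∈ N)
    (hab : ∀ x ∈ N, ∀ y ∈ N, x * y = y * x) (Y : Subgroup E)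
    (hY : ∀ y ∈ Y, ∃ m ∈ N, ∃ k : ℤ, y = m * s ^ k) : ⁅Y, Y⁆ ≤ cmS s N hN hab := by
  rw [Subgroup.commutator_le]
  intro x hx y hy
  obtain ⟨m, hm, k, rfl⟩ := hY x hx
  obtain ⟨m', hm', l, rfl⟩ := hY y hy
  have hss : s ^ k * s ^ l = s ^ l * s ^ k := by rw [← zpow_add, add_comm, zpow_add]
  have a1 : s ^ k * m' * (s ^ k)⁻¹ ∈ N := hN _ m' hm'
  have a2 : s ^ l * m⁻¹ * (s ^ l)⁻¹ ∈ N := hN _ _ (N.inv_mem hm)
  have h1 : ⁅m * s ^ k, m' * s ^ l⁆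
      = (s ^ k * m' * (s ^ k)⁻¹ * m'⁻¹) * (s ^ l * m⁻¹ * (s ^ l)⁻¹ * m⁻¹⁻¹) := by
    rw [commutatorElement_def]
    calc m * s ^ k * (m' * s ^ l) * (m * s ^ k)⁻¹ * (m' * s ^ l)⁻¹
        = m * (s ^ k * m' * (s ^ k)⁻¹) * (s ^ k * s ^ l * (s ^ k)⁻¹) * m⁻¹ * (s ^ l)⁻¹ * m'⁻¹ := by
          group
      _ = m * (s ^ k * m' * (s ^ k)⁻¹) * (s ^ l * m⁻¹ * (s ^ l)⁻¹) * m'⁻¹ := by
          rw [hss]
          group
      _ = (s ^ k * m' * (s ^ k)⁻¹) * m * m'⁻¹ * (s ^ l * m⁻¹ * (s ^ l)⁻¹) := by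
          rw [hab m hm _ a1, mul_assoc (s ^ k * m' * (s ^ k)⁻¹ * m),
            hab _ a2 _ (N.inv_mem hm')]
          group
      _ = (s ^ k * m' * (s ^ k)⁻¹) * (m'⁻¹ * m) * (s ^ l * m⁻¹ * (s ^ l)⁻¹) := by
          rw [hab _ (N.inv_mem hm') m hm]
          group
      _ = (s ^ k * m' * (s ^ k)⁻¹ * m'⁻¹) * (m * (s ^ l * m⁻¹ * (s ^ l)⁻¹)) := by group
      _ = (s ^ k * m' * (s ^ k)⁻¹ * m'⁻¹) * (s ^ l * m⁻¹ * (s ^ l)⁻¹ * m⁻¹⁻¹) := by
          rw [hab m hm _ a2, inv_inv]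
  rw [h1]
  exact Subgroup.mul_mem _ (mem_cmS_zpow s N hN hab k hm')
    (mem_cmS_zpow s N hN hab l (N.inv_mem hm))

/-- cyclic case: `Y` is generated by `M` and one element -/
theorem ker_of_cyclic (hE : commutator E = ⊤) (p : E →* X) (hs : Function.Surjective p)
    (hc : p.ker ≤ Subgroup.center E) {q : ℕ} (hq : ∀ a ∈ p.ker, a ^ q = 1) (M : Subgroup X)
    (hM : ∀ g : X, ∀ n ∈ M, g * n * g⁻¹ ∈ M)
    (hβ : ∀ x y : E, p x ∈ M → p y ∈ M → x * y = y * x) (s : E) (Y : Subgroup X)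
    (hY : ∀ y ∈ Y, ∃ m ∈ M, ∃ k : ℤ, y = m * p s ^ k)
    (hi : Y.index ≠ 0) (hco : Nat.Coprime q Y.index)
    (hψ : ∀ n : E, p n ∈ M → s * n * s⁻¹ * n⁻¹ ∈ p.ker → s * n * s⁻¹ * n⁻¹ = 1) :
    ∀ a ∈ p.ker, a = 1 := by
  intro a ha
  have hidx : (Y.comap p).index = Y.index := Subgroup.index_comap_of_surjective Y hs
  have h1 : a ∈ ⁅Y.comap p, Y.comap p⁆ := by
    apply mem_commutator hE (Y.comap p) (by rw [hidx]; exact hi) (q := q)
    · intro g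
      exact Subgroup.mem_center_iff.1 (hc ha) g
    · exact hq a ha
    · rw [hidx]
      exact hco
  have hN : ∀ g : E, ∀ n ∈ M.comap p, g * n * g⁻¹ ∈ M.comap p := by
    intro g n hn
    rw [Subgroup.mem_comap, map_mul, map_mul, map_inv]
    exact hM _ _ hn
  have hab : ∀ x ∈ M.comap p, ∀ y ∈ M.comap p, x * y = y * x := fun x hx y hy => hβ x y hx hy
  have h2 : ⁅Y.comap p, Y.comap p⁆ ≤ cmS s (M.comap p) hN hab := by
    apply commutator_le_cmS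
    intro y hy
    obtain ⟨m, hm, k, hk⟩ := hY (p y) hy
    refine ⟨y * (s ^ k)⁻¹, ?_, k, by group⟩
    rw [Subgroup.mem_comap, map_mul, map_inv, map_zpow, hk, mul_inv_cancel_right]
    exact hm
  obtain ⟨n, hn, hna⟩ := h2 h1
  rw [hna]
  apply hψ n hn
  rw [← hna]
  exact ha

end

end VRC.TR
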